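import Mathlib
import Pool.Agent.Q177.Region

/-!
# The integrated Lagrangian of an exterior Helmholtz field can be positive

We exhibit, in dimension three, a compact star-shaped body `V` with `C^∞` boundary and a radiating
solution `u` of `Δu + u = 0` outside `V`, with nonzero Dirichlet data, such that
`L = (1/2) ∫_{ℝ³ \ V} (|u|² - |∇u|²) dx > 0`.
-/

namespace Pool.Agent.Results.MP_871f9b_an.PositiveLagrangian

open MeasureTheory Set Metric Filter
open scoped ContDiff Topology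

/-- Euclidean three-space. -/
abbrev E := EuclideanSpace ℝ (Fin 3)

/-- `V` is compact and its boundary is smooth: near every boundary point `x` the set `V` is
`{F ≤ 0}` for a `C^∞` function `F` with `F x = 0` and nonvanishing derivative at `x`. -/
def IsSmoothCompactRegion (V : Set E) : Prop :=
  IsCompact V ∧ ∀ x ∈ frontier V, ∃ F : E → ℝ, ContDiffAt ℝ ∞ F x ∧ F x = 0 ∧
    fderiv ℝ F x ≠ 0 ∧ ∀ᶠ y in 𝓝 x, (y ∈ V ↔ F y ≤ 0)

/-- `u` is smooth up to the boundary outside `V`, solves `Δu + u = 0` outside `V`, and satisfies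
the outgoing radiation condition: `|x| e^{-i|x|} u(x) - f(x/|x|) → 0` as `|x| → ∞` (uniformly in
the direction), for some smooth `f`. -/
def IsRadiatingSolution (V : Set E) (u : E → ℂ) : Prop :=
  (∀ x ∈ closure Vᶜ, ContDiffAt ℝ ∞ u x) ∧
  (∀ x ∈ Vᶜ, Laplacian.laplacian u x + u x = 0) ∧
  ∃ f : E → ℂ, ContDiff ℝ ∞ f ∧
    Tendsto (fun x : E => (‖x‖ : ℂ) * Complex.exp (-(Complex.I * ‖x‖)) * u x - f (‖x‖⁻¹ • x))
      (cocompact E) (𝓝 0)

/-- The Lagrangian density `|u|² - |∇u|²`, `|∇u|² = ∑ᵢ |∂ᵢu|²`. -/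
noncomputable def density (u : E → ℂ) (x : E) : ℝ :=
  ‖u x‖ ^ 2 - ∑ i : Fin 3, ‖fderiv ℝ u x (EuclideanSpace.basisFun (Fin 3) ℝ i)‖ ^ 2

/-- The integrated Lagrangian `L = (1/2) ∫_{ℝ³ \ V} (|u|² - |∇u|²) dx`. -/
noncomputable def lagrangian (V : Set E) (u : E → ℂ) : ℝ :=
  1 / 2 * ∫ x in Vᶜ, density u x

open Pool.Agent.Q177.Polar

/-- a ball around the origin lies in the region -/
lemma ball_subset {s : ℝ} (hs : 0 < s) : ball (0 : E) (1 / (2 * s)) ⊆ region s := by
  intro x hx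
  by_contra h
  have h1 := lt_norm_of_notMem hs h
  rw [mem_ball_zero_iff] at hx
  linarith

lemma ne_zero_of_frontier {s : ℝ} (hs : 0 < s) {x : E} (hx : x ∈ frontier (region s)) :
    x ≠ 0 := by
  rintro rfl
  rw [(isClosed_region s).frontier_eq] at hx
  refine hx.2 (interior_mono (ball_subset hs) ?_)
  rw [isOpen_ball.interior_eq]
  exact mem_ball_self (by positivity)

lemma ne_zero_of_closure {s : ℝ} (hs : 0 < s) {x : E} (hx : x ∈ closure (region s)ᶜ) :
    x ≠ 0 := by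
  rintro rfl
  rw [closure_compl] at hx
  refine hx (interior_mono (ball_subset hs) ?_)
  rw [isOpen_ball.interior_eq]
  exact mem_ball_self (by positivity)

/-- defining function -/
noncomputable def defF (s : ℝ) (x : E) : ℝ := s * (x 2 ^ 2 + ‖x‖ ^ 2 / 10) - ‖x‖

lemma defF_contDiffAt (s : ℝ) {x : E} (hx : x ≠ 0) : ContDiffAt ℝ ∞ (defF s) x := by
  have h1 : ContDiffAt ℝ ∞ (fun y : E => ‖y‖) x := contDiffAt_norm ℝ hx
  have h2 : ContDiffAt ℝ ∞ (fun y : E => y 2) x :=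
    (EuclideanSpace.proj (2 : Fin 3) : E →L[ℝ] ℝ).contDiff.contDiffAt
  exact (contDiffAt_const.mul ((h2.pow 2).add ((h1.pow 2).div_const 10))).sub h1

lemma defF_continuous (s : ℝ) : Continuous (defF s) := by
  have h1 := continuous_coord 2
  have h2 : Continuous fun x : E => ‖x‖ := continuous_norm
  unfold defF
  fun_prop

lemma region_eq (s : ℝ) : region s = {x | defF s x ≤ 0} := by
  ext x
  simp [region, defF]

/-- Euler-type computation: along the ray, `F` has nonzero derivative at boundary points. -/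
lemma defF_fderiv_ne {s : ℝ} {x : E} (hx : x ≠ 0) (h0 : defF s x = 0) :
    fderiv ℝ (defF s) x ≠ 0 := by
  intro h
  have hd : HasFDerivAt (defF s) (0 : E →L[ℝ] ℝ) x := by
    rw [← h]
    exact ((defF_contDiffAt s hx).differentiableAt (by simp)).hasFDerivAt
  have hline : HasDerivAt (fun t : ℝ => t • x) x 1 := by
    simpa using (hasDerivAt_id (1 : ℝ)).smul_const x
  have hd1 : HasFDerivAt (defF s) (0 : E →L[ℝ] ℝ) ((1 : ℝ) • x) := by rwa [one_smul]
  have h1 : HasDerivAt (fun t : ℝ => defF s (t • x)) 0 1 := by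
    have h := HasFDerivAt.comp_hasDerivAt (f := fun t : ℝ => t • x) (1 : ℝ) hd1 hline
    exact h
  have h2 : (fun t : ℝ => defF s (t • x)) =ᶠ[𝓝 1]
      fun t : ℝ => t ^ 2 * (s * (x 2 ^ 2 + ‖x‖ ^ 2 / 10)) - t * ‖x‖ := by
    filter_upwards [lt_mem_nhds (show (0 : ℝ) < 1 by norm_num)] with t ht
    have e1 : ‖t • x‖ = t * ‖x‖ := by rw [norm_smul, Real.norm_of_nonneg ht.le]
    have e2 : (t • x) 2 = t * x 2 := by simp
    simp only [defF]
    rw [e1, e2]
    ring
  have h3 : HasDerivAt (fun t : ℝ => t ^ 2 * (s * (x 2 ^ 2 + ‖x‖ ^ 2 / 10)) - t * ‖x‖)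
      (2 * (s * (x 2 ^ 2 + ‖x‖ ^ 2 / 10)) - ‖x‖) 1 := by
    have a := ((hasDerivAt_pow 2 (1 : ℝ)).mul_const (s * (x 2 ^ 2 + ‖x‖ ^ 2 / 10))).sub
      ((hasDerivAt_id (1 : ℝ)).mul_const ‖x‖)
    refine a.congr_deriv ?_
    norm_num
  have h4 := (h1.congr_of_eventuallyEq h2.symm).unique h3
  have h5 : 0 < ‖x‖ := norm_pos_iff.mpr hx
  have h6 : s * (x 2 ^ 2 + ‖x‖ ^ 2 / 10) = ‖x‖ := by
    have : defF s x = s * (x 2 ^ 2 + ‖x‖ ^ 2 / 10) - ‖x‖ := rfl
    linarith
  rw [h6] at h4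
  linarith

lemma region_compact {s : ℝ} (hs : 0 < s) : IsCompact (region s) := by
  refine (isCompact_closedBall (0 : E) (10 / s)).of_isClosed_subset (isClosed_region s) ?_
  intro x hx
  rw [mem_closedBall_zero_iff]
  have h1 : s * (x 2 ^ 2 + ‖x‖ ^ 2 / 10) ≤ ‖x‖ := hx
  rcases (norm_nonneg x).eq_or_lt with h | h
  · rw [← h]; positivity
  · rw [le_div_iff₀ hs]
    have h2 : 0 ≤ s * x 2 ^ 2 := by positivity
    have h3 : ‖x‖ * (‖x‖ * s) ≤ ‖x‖ * 10 := by nlinarith
    exact le_of_mul_le_mul_left h3 h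

lemma smooth_region {s : ℝ} (hs : 0 < s) : IsSmoothCompactRegion (region s) := by
  refine ⟨region_compact hs, fun x hx => ?_⟩
  have hx0 := ne_zero_of_frontier hs hx
  have hF0 : defF s x = 0 := by
    rw [region_eq] at hx
    exact frontier_le_subset_eq (defF_continuous s) continuous_const hx
  exact ⟨defF s, defF_contDiffAt s hx0, hF0, defF_fderiv_ne hx0 hF0,
    Eventually.of_forall fun y => by rw [region_eq]; exact Iff.rfl⟩

lemma star {s : ℝ} (hs : 0 < s) : StarConvex ℝ 0 (region s) := by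
  rw [starConvex_zero_iff]
  intro x hx t ht0 ht1
  have h1 : s * (x 2 ^ 2 + ‖x‖ ^ 2 / 10) ≤ ‖x‖ := hx
  have e1 : ‖t • x‖ = t * ‖x‖ := by rw [norm_smul, Real.norm_of_nonneg ht0]
  have e2 : (t • x) 2 = t * x 2 := by simp
  show s * ((t • x) 2 ^ 2 + ‖t • x‖ ^ 2 / 10) ≤ ‖t • x‖
  rw [e1, e2]
  calc s * ((t * x 2) ^ 2 + (t * ‖x‖) ^ 2 / 10)
      = t ^ 2 * (s * (x 2 ^ 2 + ‖x‖ ^ 2 / 10)) := by ring
    _ ≤ t ^ 2 * ‖x‖ := mul_le_mul_of_nonneg_left h1 (by positivity)
    _ ≤ t * ‖x‖ := by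
        have _ := hs
        apply mul_le_mul_of_nonneg_right _ (norm_nonneg x)
        nlinarith

/-- radiation condition -/
lemma radiation : Tendsto (fun x : E => (‖x‖ : ℂ) * Complex.exp (-(Complex.I * ‖x‖)) * field x
    - Complex.I * (((‖x‖⁻¹ • x : E) 2 : ℝ) : ℂ)) (cocompact E) (𝓝 0) := by
  rw [tendsto_zero_iff_norm_tendsto_zero]
  have h1 : Tendsto (fun x : E => ‖x‖⁻¹) (cocompact E) (𝓝 0) :=
    tendsto_inv_atTop_zero.comp (tendsto_norm_cocompact_atTop)
  refine squeeze_zero' (Eventually.of_forall fun x => norm_nonneg _) ?_ h1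
  have h2 : ∀ᶠ x : E in cocompact E, 0 < ‖x‖ :=
    (tendsto_norm_cocompact_atTop).eventually (eventually_gt_atTop 0)
  filter_upwards [h2] with x hx
  have hx' : (‖x‖ : ℂ) ≠ 0 := by exact_mod_cast hx.ne'
  have e1 : (‖x‖ : ℂ) * Complex.exp (-(Complex.I * ‖x‖)) * field x
      - Complex.I * (((‖x‖⁻¹ • x : E) 2 : ℝ) : ℂ) = ((-(x 2 * (‖x‖ ^ 2)⁻¹) : ℝ) : ℂ) := by
    have e2 : Complex.exp (-(Complex.I * ‖x‖)) * Complex.exp (Complex.I * ‖x‖) = 1 := by
      rw [← Complex.exp_add]; simp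
    have e3 : (‖x‖⁻¹ • x : E) 2 = ‖x‖⁻¹ * x 2 := by simp
    rw [e3]
    simp only [field, H0, osc]
    push_cast
    calc _ = (Complex.exp (-(Complex.I * ‖x‖)) * Complex.exp (Complex.I * ‖x‖)) *
          ((‖x‖ : ℂ) * ((x 2 : ℂ) * (-((‖x‖ : ℂ) ^ 3)⁻¹ + ((‖x‖ : ℂ) ^ 2)⁻¹ * Complex.I)))
          - Complex.I * ((‖x‖ : ℂ)⁻¹ * (x 2 : ℂ)) := by ring
      _ = _ := by
          rw [e2]
          field_simp
          ring
  have h4 : 0 < (‖x‖ ^ 2)⁻¹ := by positivity
  rw [e1, Complex.norm_real, Real.norm_eq_abs, abs_neg, abs_mul, abs_of_pos h4]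
  have h3 : |x 2| ≤ ‖x‖ := by
    rw [← Real.sqrt_sq_eq_abs, ← Real.sqrt_sq hx.le]
    exact Real.sqrt_le_sqrt (coord_sq_le x)
  calc |x 2| * (‖x‖ ^ 2)⁻¹ ≤ ‖x‖ * (‖x‖ ^ 2)⁻¹ :=
        mul_le_mul_of_nonneg_right h3 (by positivity)
    _ = ‖x‖⁻¹ := by field_simp

lemma radiating {s : ℝ} (hs : 0 < s) : IsRadiatingSolution (region s) field := by
  refine ⟨fun x hx => field_contDiffAt (ne_zero_of_closure hs hx),
    fun x hx => helmholtz (ne_zero_of_closure hs (subset_closure hx)),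
    fun y => Complex.I * ((y 2 : ℝ) : ℂ), ?_, radiation⟩
  exact contDiff_const.mul ((crd 2).contDiff)

/-- the boundary point on the axis, where the field does not vanish -/
lemma exists_boundary {s : ℝ} (hs : 0 < s) : ∃ x ∈ frontier (region s), field x ≠ 0 := by
  set ρ : ℝ := 10 / (11 * s) with hρ
  have hρpos : 0 < ρ := by positivity
  have hb2 : (bv 2 : E) 2 = 1 := by simp [bv_apply]
  have hbn : ‖(bv 2 : E)‖ = 1 := by
    simp [bv]
  have hnorm : ∀ t : ℝ, 0 ≤ t → ‖t • (bv 2 : E)‖ = t := fun t ht => by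
    rw [norm_smul, hbn, mul_one, Real.norm_of_nonneg ht]
  have hc2 : ∀ t : ℝ, (t • (bv 2 : E)) 2 = t := fun t => by simp [hb2]
  have hin : ∀ t : ℝ, 0 ≤ t → (t • (bv 2 : E) ∈ region s ↔ s * (11 / 10 * t ^ 2) ≤ t) := by
    intro t ht
    show s * ((t • (bv 2 : E)) 2 ^ 2 + ‖t • (bv 2 : E)‖ ^ 2 / 10) ≤ ‖t • (bv 2 : E)‖ ↔ _
    rw [hnorm t ht, hc2]
    constructor <;> intro h <;> linarith
  refine ⟨ρ • bv 2, ?_, ?_⟩
  · rw [frontier_eq_closure_inter_closure]
    constructor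
    · apply subset_closure
      rw [hin ρ hρpos.le, hρ]
      apply le_of_eq
      field_simp
    · have hcont : ContinuousWithinAt (fun t : ℝ => t • (bv 2 : E)) (Ioi ρ) ρ :=
        (continuous_id.smul continuous_const).continuousWithinAt
      have hmem : ρ ∈ closure (Ioi ρ) := by
        rw [closure_Ioi]; exact self_mem_Ici
      refine hcont.mem_closure hmem ?_
      intro t ht
      have ht' : ρ < t := ht
      have ht0 : 0 < t := hρpos.trans ht'
      show ¬ (t • (bv 2 : E) ∈ region s)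
      rw [hin t ht0.le, not_le]
      rw [hρ, div_lt_iff₀ (by positivity)] at ht'
      nlinarith
  · have hx0 : (ρ : ℂ) ≠ 0 := by exact_mod_cast hρpos.ne'
    have hf : field (ρ • bv 2) = (ρ : ℂ) * H0 ρ := by
      simp only [field]
      rw [hnorm ρ hρpos.le, hc2]
    rw [hf]
    intro h
    have h1 : H0 ρ = 0 := (mul_eq_zero.mp h).resolve_left hx0
    have h2 : ‖H0 ρ‖ ^ 2 = 0 := by rw [h1]; simp
    simp only [H0, osc] at h2
    rw [norm_sq_osc] at h2
    have : 0 < (-(ρ ^ 3)⁻¹) ^ 2 + ((ρ ^ 2)⁻¹) ^ 2 := by positivity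
    linarith

lemma setIntegral_density {s : ℝ} (hs : 0 < s) :
    IntegrableOn (density field) (region s)ᶜ ∧
    ∫ x in (region s)ᶜ, density field x = s * wQ - s ^ 3 / 3 * wW := by
  have hm := (isClosed_region s).measurableSet.compl
  have he : EqOn dens (density field) (region s)ᶜ := fun x hx =>
    (lagr_density (ne_zero_of_closure hs (subset_closure hx))).symm
  refine ⟨(integrableOn_dens hs).congr_fun he hm, ?_⟩
  rw [← integral_dens hs]
  exact (setIntegral_congr_fun hm he).symm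

/-- **The integrated Lagrangian of a radiating exterior field may be positive.** -/
theorem result : ∃ (V : Set E) (u : E → ℂ),
    IsSmoothCompactRegion V ∧ StarConvex ℝ 0 V ∧ (0 : E) ∈ interior V ∧
    IsRadiatingSolution V u ∧ (∃ x ∈ frontier V, u x ≠ 0) ∧
    IntegrableOn (density u) Vᶜ ∧ 0 < lagrangian V u := by
  have hQ : 0 < wQ := sphere_pos
  have hW : 0 ≤ wW := integral_nonneg fun w => by positivity
  set s : ℝ := Real.sqrt (wQ / (wW + 1)) with hsdef
  have hs : 0 < s := Real.sqrt_pos.mpr (by positivity)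
  have hs2 : s ^ 2 = wQ / (wW + 1) := Real.sq_sqrt (by positivity)
  refine ⟨region s, field, smooth_region hs, star hs, ?_, radiating hs, exists_boundary hs,
    (setIntegral_density hs).1, ?_⟩
  · refine interior_mono (ball_subset hs) ?_
    rw [isOpen_ball.interior_eq]
    exact mem_ball_self (by positivity)
  · unfold lagrangian
    rw [(setIntegral_density hs).2]
    have h1 : s ^ 2 * (wW + 1) = wQ := by rw [hs2]; field_simp
    have h2 : s * wQ - s ^ 3 / 3 * wW = s * (s ^ 2 * (2 / 3 * wW + 1)) := by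
      rw [← h1]; ring
    rw [h2]
    positivity

end Pool.Agent.Results.MP_871f9b_an.PositiveLagrangian
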